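import Pool.Agent.W323.PT.Stm

set_option autoImplicit false

namespace Pool.Agent.W804.PT

open Pool.Agent.W323.PT

theorem o_cyc (a b c : Pt) : o b c a = o a b c := by
  unfold o
  ring

theorem o_swap (a b c : Pt) : o a c b = -o a b c := by
  unfold o
  ring

theorem TT_lo (P : Bool → ℕ → Pt) (u : ℤ) (h0 : 0 ≤ u) (h1 : u < 48) :
    TT P u = P false (2 * u.toNat) := by
  unfold TT
  have e1 : u % 96 = u := Int.emod_eq_of_lt h0 (by omega)
  have e2 : u % 48 = u := Int.emod_eq_of_lt h0 h1
  rw [e1, e2, if_pos h1]

theorem TT_hi (P : Bool → ℕ → Pt) (u : ℤ) (h0 : 48 ≤ u) (h1 : u < 96) :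
    TT P u = P true (2 * (u - 48).toNat + 1) := by
  unfold TT
  have e1 : u % 96 = u := Int.emod_eq_of_lt (by omega) h1
  have e2 : u % 48 = u - 48 := by omega
  rw [e1, e2, if_neg (by omega)]

theorem TT_mod (P : Bool → ℕ → Pt) (u : ℤ) : TT P (u % 96) = TT P u := by
  unfold TT
  have e1 : u % 96 % 96 = u % 96 := Int.emod_emod_of_dvd u (dvd_refl 96)
  have e2 : u % 96 % 48 = u % 48 := Int.emod_emod_of_dvd u (by norm_num)
  rw [e1, e2]

theorem base (P : Bool → ℕ → Pt) (h : Hom 96 P (blk true true true true)) (u v w : ℤ)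
    (h0 : 0 ≤ u) (h1 : u < v) (h2 : v < w) (h3 : w < 96) :
    0 < o (TT P u) (TT P v) (TT P w) := by
  by_cases hw : w < 48
  · rw [TT_lo P u h0 (by omega), TT_lo P v (by omega) (by omega), TT_lo P w (by omega) hw]
    exact (h (2 * u.toNat) (2 * v.toNat) (2 * w.toNat) (by omega) (by omega) (by omega)
      false false false).1 rfl
  push Not at hw
  by_cases hu : 48 ≤ u
  · rw [TT_hi P u hu (by omega), TT_hi P v (by omega) (by omega), TT_hi P w hw h3]
    exact (h _ _ _ (by omega) (by omega) (by omega) true true true).1 rfl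
  push Not at hu
  by_cases hv : v < 48
  · rw [TT_lo P u h0 hu, TT_lo P v (by omega) hv, TT_hi P w hw h3]
    set a := 2 * u.toNat with ha
    set b := 2 * v.toNat with hb
    set c := 2 * (w - 48).toNat + 1 with hc
    have hab : a < b := by omega
    have hb96 : b < 96 := by omega
    have hc96 : c < 96 := by omega
    rcases lt_trichotomy c a with hca | hca | hca
    · have := (h c a b hca hab hb96 true false false).1 rfl
      rw [← o_cyc] at this
      exact this
    · omega
    · rcases lt_trichotomy c b with hcb | hcb | hcb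
      · have := (h a c b hca hcb hb96 false true false).2 rfl
        rw [o_swap] at this
        linarith
      · omega
      · exact (h a b c hab hcb hc96 false false true).1 rfl
  · push Not at hv
    rw [TT_lo P u h0 hu, TT_hi P v hv (by omega), TT_hi P w hw h3]
    set a := 2 * u.toNat with ha
    set b := 2 * (v - 48).toNat + 1 with hb
    set c := 2 * (w - 48).toNat + 1 with hc
    have hbc : b < c := by omega
    have ha96 : a < 96 := by omega
    have hc96 : c < 96 := by omega
    rcases lt_trichotomy a b with hab | hab | hab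
    · exact (h a b c hab hbc hc96 false true true).1 rfl
    · omega
    · rcases lt_trichotomy a c with hac | hac | hac
      · have := (h b a c hab hac hc96 true false true).2 rfl
        have e : o (P true b) (P false a) (P true c) = -o (P false a) (P true b) (P true c) := by
          unfold o
          ring
        rw [e] at this
        linarith
      · omega
      · have := (h b c a hbc hac ha96 true true false).1 rfl
        rw [o_cyc] at this
        exact this

theorem conv : S_Conv := by
  intro P h i j k h1 h2 h3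
  rw [← TT_mod P i, ← TT_mod P j, ← TT_mod P k]
  have hi0 := Int.emod_nonneg i (by norm_num : (96 : ℤ) ≠ 0)
  have hi1 := Int.emod_lt_of_pos i (by norm_num : (0 : ℤ) < 96)
  have hj0 := Int.emod_nonneg j (by norm_num : (96 : ℤ) ≠ 0)
  have hj1 := Int.emod_lt_of_pos j (by norm_num : (0 : ℤ) < 96)
  have hk0 := Int.emod_nonneg k (by norm_num : (96 : ℤ) ≠ 0)
  have hk1 := Int.emod_lt_of_pos k (by norm_num : (0 : ℤ) < 96)
  have hcase : (i % 96 < j % 96 ∧ j % 96 < k % 96) ∨ (j % 96 < k % 96 ∧ k % 96 < i % 96) ∨
      (k % 96 < i % 96 ∧ i % 96 < j % 96) := by omega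
  rcases hcase with ⟨a1, a2⟩ | ⟨a1, a2⟩ | ⟨a1, a2⟩
  · exact base P h _ _ _ hi0 a1 a2 hk1
  · have := base P h _ _ _ hj0 a1 a2 hi1
    rw [o_cyc] at this
    exact this
  · have := base P h _ _ _ hk0 a1 a2 hj1
    rw [← o_cyc] at this
    exact this

end Pool.Agent.W804.PT
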